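import Pool.Agent.Helper63.XP.StA

/-!
# Project XP (MP_c973ff_an), module DCP: the decomposition step
-/

set_option autoImplicit false

namespace Pool.Agent.Helper9.XP

open Finset Pool.Agent.Helper63.XP
open Pool.Agent.Helper63.XR (gen blk wt StTrh StRkt StBon)

/-- double counting -/
theorem dbl {U T : Type} [Fintype U] [DecidableEq U] [Fintype T] [DecidableEq T]
    (G : T → Finset U) (f : U → ℝ) (hf : ∀ u, 0 ≤ f u) (a1 : ℕ)
    (hpar : ∀ u, (univ.filter fun t => u ∈ G t).card ≤ a1) :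
    ∑ t, ∑ u ∈ G t, f u ≤ a1 * ∑ u, f u := by
  have h1 : ∀ t, ∑ u ∈ G t, f u = ∑ u, if u ∈ G t then f u else 0 := by
    intro t
    rw [Finset.sum_ite_mem, Finset.univ_inter]
  rw [Finset.sum_congr rfl (fun t _ => h1 t), Finset.sum_comm, Finset.mul_sum]
  apply Finset.sum_le_sum
  intro u _
  rw [← Finset.sum_filter, Finset.sum_const, nsmul_eq_mul]
  apply mul_le_mul_of_nonneg_right _ (hf u)
  exact_mod_cast hpar u

/-- the `p`-th power of a short sum -/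
theorem pow_le {U : Type} (S : Finset U) (x : U → ℝ) (hx : ∀ u, 0 ≤ x u) (p w X : ℝ) (d : ℕ) (hp : 1 < p)
    (hd : 1 ≤ d) (hS : S.card ≤ d) (hw : 0 ≤ w ∧ w ≤ 1) (hX : 0 ≤ X) (hXS : X ≤ ∑ u ∈ S, x u) :
    (w * (d : ℝ) ^ (1 / p - 1) * X) ^ p ≤ ∑ u ∈ S, x u ^ p := by
  have hd0 : (0 : ℝ) < d := by exact_mod_cast hd
  set D : ℝ := (d : ℝ) ^ (1 / p - 1) with hD
  have hD0 : 0 < D := Real.rpow_pos_of_pos hd0 _
  have hSg : 0 ≤ ∑ u ∈ S, x u := Finset.sum_nonneg fun u _ => hx u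
  have h1 : w * D * X ≤ D * ∑ u ∈ S, x u := by
    have : w * D * X ≤ 1 * D * ∑ u ∈ S, x u := by
      apply mul_le_mul (mul_le_mul_of_nonneg_right hw.2 hD0.le) hXS hX (by positivity)
    linarith
  have h0 : 0 ≤ w * D * X := mul_nonneg (mul_nonneg hw.1 hD0.le) hX
  have h2 : (w * D * X) ^ p ≤ (D * ∑ u ∈ S, x u) ^ p := Real.rpow_le_rpow h0 h1 (by linarith)
  have h3 : (D * ∑ u ∈ S, x u) ^ p = D ^ p * (∑ u ∈ S, x u) ^ p := Real.mul_rpow hD0.le hSg
  have h4 : (∑ u ∈ S, x u) ^ p ≤ (S.card : ℝ) ^ (p - 1) * ∑ u ∈ S, x u ^ p :=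
    Real.rpow_sum_le_const_mul_sum_rpow_of_nonneg S hp.le (fun i _ => hx i)
  have hSgp : 0 ≤ ∑ u ∈ S, x u ^ p := Finset.sum_nonneg fun u _ => Real.rpow_nonneg (hx u) _
  have h5 : (S.card : ℝ) ^ (p - 1) ≤ (d : ℝ) ^ (p - 1) :=
    Real.rpow_le_rpow (Nat.cast_nonneg _) (by exact_mod_cast hS) (by linarith)
  have h6 : D ^ p * (d : ℝ) ^ (p - 1) = 1 := by
    rw [hD, ← Real.rpow_mul hd0.le, ← Real.rpow_add hd0]
    have : (1 / p - 1) * p + (p - 1) = 0 := by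
      have : p ≠ 0 := by linarith
      field_simp
      ring
    rw [this, Real.rpow_zero]
  calc (w * D * X) ^ p ≤ D ^ p * (∑ u ∈ S, x u) ^ p := h2.trans h3.le
    _ ≤ D ^ p * ((d : ℝ) ^ (p - 1) * ∑ u ∈ S, x u ^ p) := by
        apply mul_le_mul_of_nonneg_left _ (Real.rpow_nonneg hD0.le _)
        exact h4.trans (mul_le_mul_of_nonneg_right h5 hSgp)
    _ = (D ^ p * (d : ℝ) ^ (p - 1)) * ∑ u ∈ S, x u ^ p := by ring
    _ = ∑ u ∈ S, x u ^ p := by rw [h6, one_mul]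

/-- squares of the sums over sets with small intersections -/
theorem sq_sum {U T : Type} [Fintype U] [DecidableEq U] [Fintype T] [DecidableEq T] (G : T → Finset U) (x : U → ℝ)
    (hx : ∀ u, 0 ≤ x u) (m : ℕ) (hpar : ∀ u, (univ.filter fun t => u ∈ G t).card ≤ m)
    (hG : ∀ t t', t ≠ t' → (G t ∩ G t').card ≤ 1) :
    ∑ t, (∑ u ∈ G t, x u) ^ 2 ≤ m * ∑ u, x u ^ 2 + (∑ u, x u) ^ 2 := by
  have h1 : ∀ t, (∑ u ∈ G t, x u) ^ 2 = ∑ u, ∑ v, if u ∈ G t ∧ v ∈ G t then x u * x v else 0 := by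
    intro t
    rw [sq, Finset.sum_mul_sum]
    rw [← Finset.sum_subset (Finset.subset_univ (G t))]
    · apply Finset.sum_congr rfl
      intro u hu
      rw [← Finset.sum_subset (Finset.subset_univ (G t))]
      · apply Finset.sum_congr rfl
        intro v hv
        rw [if_pos ⟨hu, hv⟩]
      · intro v _ hv
        rw [if_neg (fun h => hv h.2)]
    · intro u _ hu
      apply Finset.sum_eq_zero
      intro v _
      rw [if_neg (fun h => hu h.1)]
  have h2 : ∑ t, (∑ u ∈ G t, x u) ^ 2 =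
      ∑ u, ∑ v, ((univ.filter fun t => u ∈ G t ∧ v ∈ G t).card : ℝ) * (x u * x v) := by
    rw [Finset.sum_congr rfl (fun t _ => h1 t), Finset.sum_comm]
    apply Finset.sum_congr rfl
    intro u _
    rw [Finset.sum_comm]
    apply Finset.sum_congr rfl
    intro v _
    rw [← Finset.sum_filter, Finset.sum_const, nsmul_eq_mul]
  have h3 : ∀ u v : U, u ≠ v → (univ.filter fun t => u ∈ G t ∧ v ∈ G t).card ≤ 1 := by
    intro u v huv
    rw [Finset.card_le_one]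
    intro t ht t' ht'
    by_contra hne
    have h4 := hG t t' hne
    rw [Finset.card_le_one] at h4
    rw [Finset.mem_filter] at ht ht'
    exact huv (h4 u (Finset.mem_inter.2 ⟨ht.2.1, ht'.2.1⟩) v (Finset.mem_inter.2 ⟨ht.2.2, ht'.2.2⟩))
  have h5 : ∀ u v : U, ((univ.filter fun t => u ∈ G t ∧ v ∈ G t).card : ℝ) * (x u * x v) ≤
      (if u = v then (m : ℝ) * (x u * x v) else 0) + x u * x v := by
    intro u v
    have hxx : 0 ≤ x u * x v := mul_nonneg (hx u) (hx v)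
    split_ifs with h
    · subst h
      have h6 : ((univ.filter fun t => u ∈ G t ∧ u ∈ G t).card : ℝ) ≤ m := by
        have h7 := hpar u
        simp only [and_self]
        exact_mod_cast h7
      have := mul_le_mul_of_nonneg_right h6 hxx
      linarith
    · have h6 : ((univ.filter fun t => u ∈ G t ∧ v ∈ G t).card : ℝ) ≤ 1 := by exact_mod_cast h3 u v h
      have := mul_le_mul_of_nonneg_right h6 hxx
      linarith
  rw [h2]
  calc ∑ u, ∑ v, ((univ.filter fun t => u ∈ G t ∧ v ∈ G t).card : ℝ) * (x u * x v)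
      ≤ ∑ u, ∑ v, ((if u = v then (m : ℝ) * (x u * x v) else 0) + x u * x v) :=
        Finset.sum_le_sum fun u _ => Finset.sum_le_sum fun v _ => h5 u v
    _ = m * ∑ u, x u ^ 2 + (∑ u, x u) ^ 2 := by
        have e1 : ∀ u, ∑ v, ((if u = v then (m : ℝ) * (x u * x v) else 0) + x u * x v) =
            m * x u ^ 2 + x u * ∑ v, x v := by
          intro u
          rw [Finset.sum_add_distrib, Finset.sum_ite_eq, if_pos (Finset.mem_univ u), ← Finset.mul_sum]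
          ring
        rw [Finset.sum_congr rfl (fun u _ => e1 u), Finset.sum_add_distrib, ← Finset.mul_sum, ← Finset.sum_mul]
        ring

/-- `x² = x^p x^(2-p)` -/
theorem sq_le_rpow (x h p : ℝ) (hx : 0 ≤ x) (hxh : x ≤ h) (hp : 1 < p) (hp2 : p < 2) :
    x ^ 2 ≤ h ^ (2 - p) * x ^ p := by
  rcases hx.eq_or_lt with h0 | h0
  · rw [← h0, Real.zero_rpow (by linarith)]
    simp
  · have h1 : x ^ 2 = x ^ (2 - p) * x ^ p := by
      rw [← Real.rpow_add h0, ← Real.rpow_natCast]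
      congr 1
      push_cast
      ring
    rw [h1]
    exact mul_le_mul_of_nonneg_right (Real.rpow_le_rpow hx hxh (by linarith)) (Real.rpow_nonneg hx _)

/-- `x = x^p x^(1-p)` -/
theorem le_rpow_of_lt (x h p : ℝ) (hh : 0 < h) (hxh : h ≤ x) (hp : 1 < p) :
    x ≤ h ^ (1 - p) * x ^ p := by
  have h0 : 0 < x := hh.trans_le hxh
  have h1 : x = x ^ (1 - p) * x ^ p := by
    rw [← Real.rpow_add h0]
    have : 1 - p + p = 1 := by ring
    rw [this, Real.rpow_one]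
  calc x = x ^ (1 - p) * x ^ p := h1
    _ ≤ h ^ (1 - p) * x ^ p := by
        apply mul_le_mul_of_nonneg_right _ (Real.rpow_nonneg h0.le _)
        exact Real.rpow_le_rpow_of_nonpos hh hxh (by linarith)

/-- norm of a sum with phases -/
theorem nsum_le {U : Type} (G : Finset U) (s y : U → ℂ) (hs : ∀ u, ‖s u‖ ≤ 1) :
    ‖∑ u ∈ G, s u * y u‖ ≤ ∑ u ∈ G, ‖y u‖ := by
  refine (norm_sum_le _ _).trans (Finset.sum_le_sum fun u _ => ?_)
  rw [norm_mul]
  have := mul_le_mul_of_nonneg_right (hs u) (norm_nonneg (y u))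
  linarith

/-- DCP -/
theorem hDCP : StDcp := by
  intro hBon hPel U T _ _ _ _ p G σ w y1 y2 κ ζ ε z B ha hc τ d m s0 J Q hp hp2 hd hD hκ hB hσ hw hcard hpar hG hl2
    hcore hy1 hy2 hζ hζε hsum
  classical
  have hε : 0 ≤ ε := hζ.trans hζε
  have hd0 : (0 : ℝ) < d := by exact_mod_cast hd
  have hp0 : 0 < p := by linarith
  have hc0 : 0 < hc := hD.hc_pos
  have ha0 : 0 < ha := hc0.trans_le hD.le
  have hτ := hD.tau
  set D : ℝ := (d : ℝ) ^ (1 / p - 1) with hDd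
  have hD0 : 0 < D := Real.rpow_pos_of_pos hd0 _
  have hD2 : (d : ℝ) ^ (2 / p - 2) = D ^ 2 := by
    rw [hDd, ← Real.rpow_natCast, ← Real.rpow_mul hd0.le]
    congr 1
    push_cast
    ring
  -- bounds for the entries
  have hy2u : ∀ u, ‖y2 u‖ ≤ ζ := by
    intro u
    have h1 : ‖y2 u‖ ^ 2 ≤ ∑ u, ‖y2 u‖ ^ 2 :=
      Finset.single_le_sum (f := fun u => ‖y2 u‖ ^ 2) (fun _ _ => sq_nonneg _) (Finset.mem_univ u)
    exact (pow_le_pow_iff_left₀ (norm_nonneg _) hζ two_ne_zero).1 (h1.trans hy2)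
  have hy1u : ∀ t, ∀ u ∈ G t, ‖y1 u‖ ≤ 2 * ε := by
    intro t u hu
    have h1 : y1 u = (y1 u + y2 u) - y2 u := by ring
    have h2 : ‖y1 u‖ ≤ ‖y1 u + y2 u‖ + ‖y2 u‖ := by
      conv_lhs => rw [h1]
      exact norm_sub_le _ _
    have h3 := hsum t u hu
    have h4 := hy2u u
    linarith
  set U1 : Finset U := univ.filter fun u => ∃ t, u ∈ G t with hU1
  have hGU : ∀ t, ∀ u ∈ G t, u ∈ U1 := fun t u hu => by
    rw [hU1, Finset.mem_filter]
    exact ⟨Finset.mem_univ u, t, hu⟩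
  have hU1b : ∀ u ∈ U1, ‖y1 u‖ ≤ 2 * ε := by
    intro u hu
    rw [hU1, Finset.mem_filter] at hu
    obtain ⟨t, ht⟩ := hu.2
    exact hy1u t u ht
  -- the pieces
  set xa : U → ℝ := fun u => if u ∈ U1 ∧ ha < ‖y1 u‖ then ‖y1 u‖ else 0 with hxa
  set Ub : Finset U := univ.filter fun u => u ∈ U1 ∧ hc < ‖y1 u‖ ∧ ‖y1 u‖ ≤ ha with hUb
  set ya : U → ℂ := fun u => if u ∈ U1 ∧ ha < ‖y1 u‖ then y1 u else 0 with hya
  set yb : U → ℂ := fun u => if u ∈ Ub then y1 u else 0 with hyb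
  set yc : U → ℂ := fun u => if u ∈ U1 ∧ ‖y1 u‖ ≤ hc then y1 u else 0 with hyc
  have hsplit : ∀ u ∈ U1, y1 u = ya u + yb u + yc u := by
    intro u hu
    simp only [hya, hyb, hyc, hUb, Finset.mem_filter, Finset.mem_univ, true_and, hu]
    by_cases h1 : ha < ‖y1 u‖
    · have h2 : ¬ (‖y1 u‖ ≤ ha) := not_le.2 h1
      have h3 : ¬ (‖y1 u‖ ≤ hc) := not_le.2 (hD.le.trans_lt h1)
      simp [h1, h2, h3]
    · by_cases h2 : ‖y1 u‖ ≤ hc
      · have h3 : ¬ (hc < ‖y1 u‖) := not_lt.2 h2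
        simp [h1, h2, h3]
      · have h3 : hc < ‖y1 u‖ := not_le.1 h2
        simp [h1, h2, h3, not_lt.1 h1]
  have hκp : ∀ u, 0 ≤ ‖y1 u‖ ^ p := fun u => Real.rpow_nonneg (norm_nonneg _) _
  set a : T → ℂ := fun t => ∑ u ∈ G t, σ u t * ya u with haT
  set b : T → ℂ := fun t => ∑ u ∈ G t, σ u t * yb u with hbT
  set c : T → ℂ := fun t => ∑ u ∈ G t, σ u t * yc u with hcT
  set q : T → ℂ := fun t => ((w t * D : ℝ) : ℂ) * ∑ u ∈ G t, σ u t * y1 u with hqT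
  set n : T → ℂ := fun t => ((w t * D : ℝ) : ℂ) * ∑ u ∈ G t, σ u t * y2 u with hnT
  have hwD : ∀ t, 0 ≤ w t * D := fun t => mul_nonneg (hw t).1 hD0.le
  have hwD1 : ∀ t, w t * D ≤ D := fun t => by
    have := mul_le_mul_of_nonneg_right (hw t).2 hD0.le
    linarith
  have hwDn : ∀ t, ‖((w t * D : ℝ) : ℂ)‖ = w t * D := fun t => by
    rw [Complex.norm_real, Real.norm_of_nonneg (hwD t)]
  have hqs : ∀ t, q t = ((w t * D : ℝ) : ℂ) * (a t + b t + c t) := by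
    intro t
    simp only [hqT, haT, hbT, hcT]
    congr 1
    rw [← Finset.sum_add_distrib, ← Finset.sum_add_distrib]
    apply Finset.sum_congr rfl
    intro u hu
    rw [hsplit u (hGU t u hu)]
    ring
  -- (A)
  have hA : ∑ t, ‖a t‖ ^ 2 ≤ m * κ * (2 * ε) ^ (2 - p) + κ ^ 2 * ha ^ (2 - 2 * p) := by
    have hxa0 : ∀ u, 0 ≤ xa u := fun u => by
      simp only [hxa]
      split_ifs
      · exact norm_nonneg _
      · exact le_rfl
    have h1 : ∀ t, ‖a t‖ ^ 2 ≤ (∑ u ∈ G t, xa u) ^ 2 := by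
      intro t
      apply pow_le_pow_left₀ (norm_nonneg _)
      refine (nsum_le (G t) (fun u => σ u t) ya (fun u => hσ u t)).trans (Finset.sum_le_sum fun u _ => ?_)
      simp only [hya, hxa]
      split_ifs
      · exact le_rfl
      · rw [norm_zero]
    have h2 := sq_sum G xa hxa0 m hpar hG
    have h3 : ∑ u, xa u ^ 2 ≤ (2 * ε) ^ (2 - p) * κ := by
      calc ∑ u, xa u ^ 2 ≤ ∑ u, (2 * ε) ^ (2 - p) * ‖y1 u‖ ^ p := by
            apply Finset.sum_le_sum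
            intro u _
            simp only [hxa]
            split_ifs with h
            · exact sq_le_rpow _ _ p (norm_nonneg _) (hU1b u h.1) hp hp2
            · have : 0 ≤ (2 * ε) ^ (2 - p) * ‖y1 u‖ ^ p :=
                mul_nonneg (Real.rpow_nonneg (by linarith) _) (hκp u)
              simpa using this
        _ = (2 * ε) ^ (2 - p) * ∑ u, ‖y1 u‖ ^ p := by rw [Finset.mul_sum]
        _ ≤ _ := mul_le_mul_of_nonneg_left hy1 (Real.rpow_nonneg (by linarith) _)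
    have h4 : ∑ u, xa u ≤ ha ^ (1 - p) * κ := by
      calc ∑ u, xa u ≤ ∑ u, ha ^ (1 - p) * ‖y1 u‖ ^ p := by
            apply Finset.sum_le_sum
            intro u _
            simp only [hxa]
            split_ifs with h
            · exact le_rpow_of_lt _ _ p ha0 h.2.le hp
            · exact mul_nonneg (Real.rpow_nonneg ha0.le _) (hκp u)
        _ = ha ^ (1 - p) * ∑ u, ‖y1 u‖ ^ p := by rw [Finset.mul_sum]
        _ ≤ _ := mul_le_mul_of_nonneg_left hy1 (Real.rpow_nonneg ha0.le _)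
    have h5 : (∑ u, xa u) ^ 2 ≤ (ha ^ (1 - p) * κ) ^ 2 :=
      pow_le_pow_left₀ (Finset.sum_nonneg fun u _ => hxa0 u) h4 2
    have h6 : (ha ^ (1 - p)) ^ 2 = ha ^ (2 - 2 * p) := by
      rw [← Real.rpow_natCast, ← Real.rpow_mul ha0.le]
      congr 1
      push_cast
      ring
    calc ∑ t, ‖a t‖ ^ 2 ≤ ∑ t, (∑ u ∈ G t, xa u) ^ 2 := Finset.sum_le_sum fun t _ => h1 t
      _ ≤ m * ∑ u, xa u ^ 2 + (∑ u, xa u) ^ 2 := h2
      _ ≤ m * ((2 * ε) ^ (2 - p) * κ) + (ha ^ (1 - p) * κ) ^ 2 :=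
          add_le_add (mul_le_mul_of_nonneg_left h3 (Nat.cast_nonneg _)) h5
      _ = _ := by rw [mul_pow, h6]; ring
  -- (C)
  have hC : ∑ t, ‖c t‖ ^ 2 ≤ B * κ * hc ^ (2 - p) := by
    have h3 : ∑ u, ‖yc u‖ ^ 2 ≤ hc ^ (2 - p) * κ := by
      calc ∑ u, ‖yc u‖ ^ 2 ≤ ∑ u, hc ^ (2 - p) * ‖y1 u‖ ^ p := by
            apply Finset.sum_le_sum
            intro u _
            simp only [hyc]
            split_ifs with h
            · exact sq_le_rpow _ _ p (norm_nonneg _) h.2 hp hp2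
            · have : 0 ≤ hc ^ (2 - p) * ‖y1 u‖ ^ p :=
                mul_nonneg (Real.rpow_nonneg hc0.le _) (hκp u)
              simpa using this
        _ = hc ^ (2 - p) * ∑ u, ‖y1 u‖ ^ p := by rw [Finset.mul_sum]
        _ ≤ _ := mul_le_mul_of_nonneg_left hy1 (Real.rpow_nonneg hc0.le _)
    calc ∑ t, ‖c t‖ ^ 2 ≤ B * ∑ u, ‖yc u‖ ^ 2 := hl2 yc
      _ ≤ B * (hc ^ (2 - p) * κ) := mul_le_mul_of_nonneg_left h3 hB
      _ = _ := by ring
  -- (B)
  set j : T → ℕ := fun t => (G t ∩ Ub).card with hj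
  have hUbc : (Ub.card : ℝ) ≤ κ * hc ^ (-p) := by
    have h1 : (Ub.card : ℝ) * hc ^ p ≤ κ := by
      calc (Ub.card : ℝ) * hc ^ p = ∑ u ∈ Ub, hc ^ p := by rw [Finset.sum_const, nsmul_eq_mul]
        _ ≤ ∑ u ∈ Ub, ‖y1 u‖ ^ p := by
            apply Finset.sum_le_sum
            intro u hu
            rw [hUb, Finset.mem_filter] at hu
            exact Real.rpow_le_rpow hc0.le hu.2.2.1.le hp0.le
        _ ≤ ∑ u, ‖y1 u‖ ^ p := Finset.sum_le_sum_of_subset_of_nonneg (Finset.subset_univ _) fun u _ _ => hκp u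
        _ ≤ κ := hy1
    rw [Real.rpow_neg hc0.le, ← div_eq_mul_inv, le_div_iff₀ (Real.rpow_pos_of_pos hc0 _)]
    exact h1
  have hUbQ : Ub.card ≤ Q := by
    have := hUbc.trans hD.qq
    exact_mod_cast this
  have hjs : (∑ t, (j t : ℝ)) ≤ m * Ub.card := by
    have h1 : ∀ t, (j t : ℝ) = ∑ u ∈ G t, if u ∈ Ub then (1 : ℝ) else 0 := by
      intro t
      rw [Finset.sum_ite_mem, Finset.sum_const, nsmul_eq_mul, mul_one]
    rw [Finset.sum_congr rfl (fun t _ => h1 t)]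
    refine (dbl G (fun u => if u ∈ Ub then (1 : ℝ) else 0) (fun u => by positivity) m hpar).trans (le_of_eq ?_)
    congr 1
    rw [Finset.sum_ite_mem, Finset.univ_inter, Finset.sum_const, nsmul_eq_mul, mul_one]
  have hybn : ∀ u, ‖yb u‖ ≤ if u ∈ Ub then ha else 0 := by
    intro u
    simp only [hyb]
    split_ifs with h
    · rw [hUb, Finset.mem_filter] at h
      exact h.2.2.2
    · rw [norm_zero]
  have hbn : ∀ t, ‖b t‖ ≤ ha * j t := by
    intro t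
    refine (nsum_le (G t) (fun u => σ u t) yb (fun u => hσ u t)).trans ?_
    calc ∑ u ∈ G t, ‖yb u‖ ≤ ∑ u ∈ G t, if u ∈ Ub then ha else 0 := Finset.sum_le_sum fun u _ => hybn u
      _ = ha * j t := by
          rw [Finset.sum_ite_mem, Finset.sum_const, nsmul_eq_mul, mul_comm]
  -- the p-th powers
  have hFb : ∀ t, (w t * D * ‖b t‖) ^ p ≤ ∑ u ∈ G t, ‖yb u‖ ^ p := fun t =>
    pow_le (G t) (fun u => ‖yb u‖) (fun u => norm_nonneg _) p (w t) ‖b t‖ d hp hd (hcard t) (hw t) (norm_nonneg _)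
      (nsum_le (G t) (fun u => σ u t) yb (fun u => hσ u t))
  have hFj : ∀ t, (w t * D * ‖b t‖) ^ p ≤ ha ^ p * j t := by
    intro t
    refine (hFb t).trans ?_
    calc ∑ u ∈ G t, ‖yb u‖ ^ p ≤ ∑ u ∈ G t, if u ∈ Ub then ha ^ p else 0 := by
          apply Finset.sum_le_sum
          intro u _
          have h1 := hybn u
          split_ifs with h
          · rw [if_pos h] at h1
            exact Real.rpow_le_rpow (norm_nonneg _) h1 hp0.le
          · rw [if_neg h] at h1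
            have h2 : ‖yb u‖ = 0 := le_antisymm h1 (norm_nonneg _)
            rw [h2, Real.zero_rpow hp0.ne']
      _ = ha ^ p * j t := by
          rw [Finset.sum_ite_mem, Finset.sum_const, nsmul_eq_mul, mul_comm]
  have hybp : ∑ u, ‖yb u‖ ^ p ≤ κ := by
    refine le_trans (Finset.sum_le_sum fun u _ => ?_) hy1
    simp only [hyb]
    split_ifs
    · exact le_rfl
    · rw [norm_zero, Real.zero_rpow hp0.ne']
      exact hκp u
  set T1 : Finset T := univ.filter fun t => τ ≤ w t * D * ‖b t‖ with hT1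
  have hδ0 : (0 : ℝ) ≤ (2 * ε) ^ p := Real.rpow_nonneg (by linarith) _
  have hT1c : T1.card < s0 := by
    refine (hBon U T (fun u => ‖yb u‖ ^ p) G κ ((2 * ε) ^ p) (τ ^ p) s0 T1 (fun t => (w t * D * ‖b t‖) ^ p)
      (fun u => Real.rpow_nonneg (norm_nonneg _) _) hybp ?_ (fun t _ t' _ htt => hG t t' htt) ?_
      (fun t _ => hFb t) hD.sig hD.sig2 hδ0).1
    · intro t _ u hu
      apply Real.rpow_le_rpow (norm_nonneg _) _ hp0.le
      simp only [hyb]
      split_ifs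
      · exact hy1u t u hu
      · rw [norm_zero]
        linarith
    · intro t ht
      rw [hT1, Finset.mem_filter] at ht
      exact Real.rpow_le_rpow hτ.le ht.2 hp0.le
  have hT1s : (T1.card : ℝ) ^ 2 * (2 * ε) ^ p ≤ 1 := by
    have h1 : (T1.card : ℝ) ^ 2 ≤ (s0 : ℝ) ^ 2 :=
      pow_le_pow_left₀ (Nat.cast_nonneg _) (by exact_mod_cast hT1c.le) 2
    exact (mul_le_mul_of_nonneg_right h1 hδ0).trans hD.sig2
  -- the first part
  have hq1 : ∀ t, ‖q t‖ ^ p ≤ ∑ u ∈ G t, ‖y1 u‖ ^ p := by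
    intro t
    have h1 : ‖q t‖ = w t * D * ‖∑ u ∈ G t, σ u t * y1 u‖ := by
      simp only [hqT]
      rw [norm_mul, hwDn]
    rw [h1]
    exact pow_le (G t) (fun u => ‖y1 u‖) (fun u => norm_nonneg _) p (w t) _ d hp hd (hcard t) (hw t) (norm_nonneg _)
      (nsum_le (G t) (fun u => σ u t) y1 (fun u => hσ u t))
  have hfirst : ∑ t ∈ T1, ‖q t‖ ^ p ≤ κ + 1 := by
    refine hPel.2 U T (fun u => if u ∈ U1 then ‖y1 u‖ ^ p else 0) G κ ((2 * ε) ^ p) T1 (fun t => ‖q t‖ ^ p)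
      ?_ ?_ ?_ hδ0 (fun t _ t' _ htt => hG t t' htt) ?_ hT1s
    · intro u
      split_ifs
      · exact hκp u
      · exact le_rfl
    · refine le_trans (Finset.sum_le_sum fun u _ => ?_) hy1
      split_ifs
      · exact le_rfl
      · exact hκp u
    · intro t _ u hu
      rw [if_pos (hGU t u hu)]
      exact Real.rpow_le_rpow (norm_nonneg _) (hy1u t u hu) hp0.le
    · intro t _
      refine (hq1 t).trans (le_of_eq (Finset.sum_congr rfl fun u hu => ?_))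
      rw [if_pos (hGU t u hu)]
  -- the set TJ
  set TJ : Finset T := univ.filter fun t => 2 * J ≤ j t with hTJ
  have hTJs : (∑ t ∈ TJ, (j t : ℝ)) ≤ 2 * Ub.card := by
    by_contra hcon
    rw [not_le] at hcon
    have h1 : 2 * Ub.card < ∑ t ∈ TJ, j t := by exact_mod_cast hcon
    have h2 : TJ.card * (2 * J) ≤ ∑ t ∈ TJ, j t := by
      rw [← smul_eq_mul, ← Finset.sum_const]
      apply Finset.sum_le_sum
      intro t ht
      rw [hTJ, Finset.mem_filter] at ht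
      exact ht.2
    have h3 : Ub.card + TJ.card * J < ∑ t ∈ TJ, (G t ∩ Ub).card := by
      have h4 : ∑ t ∈ TJ, (G t ∩ Ub).card = ∑ t ∈ TJ, j t := rfl
      rw [h4]
      have h5 : TJ.card * (2 * J) = 2 * (TJ.card * J) := by ring
      omega
    obtain ⟨T', -, U', hU', hne, hJ, h2'⟩ := hPel.1 T U G TJ Ub J h3
    have h6 := hcore T' U' hne hJ h2'
    have h7 := Finset.card_le_card hU'
    omega
  -- the squares off T1
  have hoff : ∀ t, (if t ∈ T1 then 0 else (w t * D * ‖b t‖) ^ 2) ≤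
      D ^ 2 * ha ^ 2 * (2 * J) * j t + (if t ∈ TJ then τ ^ (2 - p) * (ha ^ p * j t) else 0) := by
    intro t
    have hj0 : (0 : ℝ) ≤ j t := Nat.cast_nonneg _
    have hX0 : 0 ≤ w t * D * ‖b t‖ := mul_nonneg (hwD t) (norm_nonneg _)
    have hnn1 : 0 ≤ D ^ 2 * ha ^ 2 * (2 * J) * j t := by positivity
    have hnn2 : 0 ≤ τ ^ (2 - p) * (ha ^ p * j t) := by positivity
    by_cases h1 : t ∈ T1
    · rw [if_pos h1]
      split_ifs <;> linarith
    · rw [if_neg h1]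
      have h1' : w t * D * ‖b t‖ ≤ τ := by
        rw [hT1, Finset.mem_filter] at h1
        by_contra h2
        exact h1 ⟨Finset.mem_univ t, (not_le.1 h2).le⟩
      by_cases h2 : t ∈ TJ
      · rw [if_pos h2]
        have h3 := sq_le_rpow (w t * D * ‖b t‖) τ p hX0 h1' hp hp2
        have h4 := mul_le_mul_of_nonneg_left (hFj t) (Real.rpow_nonneg hτ.le (2 - p))
        linarith
      · rw [if_neg h2, add_zero]
        have h2' : j t < 2 * J := by
          rw [hTJ, Finset.mem_filter] at h2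
          by_contra h3
          exact h2 ⟨Finset.mem_univ t, not_lt.1 h3⟩
        have h3 : (j t : ℝ) ≤ 2 * J := by exact_mod_cast h2'.le
        have h4 : w t * D * ‖b t‖ ≤ D * (ha * j t) :=
          mul_le_mul (hwD1 t) (hbn t) (norm_nonneg _) hD0.le
        calc (w t * D * ‖b t‖) ^ 2 ≤ (D * (ha * j t)) ^ 2 := pow_le_pow_left₀ hX0 h4 2
          _ = D ^ 2 * ha ^ 2 * j t * j t := by ring
          _ ≤ D ^ 2 * ha ^ 2 * (2 * J) * j t := by
              apply mul_le_mul_of_nonneg_right _ hj0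
              exact mul_le_mul_of_nonneg_left h3 (by positivity)
  have hoffs : ∑ t, (if t ∈ T1 then 0 else (w t * D * ‖b t‖) ^ 2) ≤
      D ^ 2 * (2 * J * m * κ * ha ^ 2 * hc ^ (-p)) + 2 * κ * τ ^ (2 - p) * ha ^ p * hc ^ (-p) := by
    calc ∑ t, (if t ∈ T1 then 0 else (w t * D * ‖b t‖) ^ 2)
        ≤ ∑ t, (D ^ 2 * ha ^ 2 * (2 * J) * j t + (if t ∈ TJ then τ ^ (2 - p) * (ha ^ p * j t) else 0)) :=
          Finset.sum_le_sum fun t _ => hoff t
      _ = D ^ 2 * ha ^ 2 * (2 * J) * ∑ t, (j t : ℝ) + τ ^ (2 - p) * ha ^ p * ∑ t ∈ TJ, (j t : ℝ) := by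
          rw [Finset.sum_add_distrib, ← Finset.mul_sum, Finset.sum_ite_mem, Finset.univ_inter]
          congr 1
          rw [Finset.mul_sum]
          apply Finset.sum_congr rfl
          intro t _
          ring
      _ ≤ D ^ 2 * ha ^ 2 * (2 * J) * (m * (κ * hc ^ (-p))) + τ ^ (2 - p) * ha ^ p * (2 * (κ * hc ^ (-p))) := by
          apply add_le_add
          · apply mul_le_mul_of_nonneg_left _ (by positivity)
            exact hjs.trans (mul_le_mul_of_nonneg_left hUbc (Nat.cast_nonneg _))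
          · apply mul_le_mul_of_nonneg_left _ (by positivity)
            exact hTJs.trans (mul_le_mul_of_nonneg_left hUbc (by norm_num))
      _ = _ := by ring
  have hqsq : ∀ t, ‖(if t ∈ T1 then 0 else q t)‖ ^ 2 ≤ 3 * (D ^ 2 * ‖a t‖ ^ 2) + 3 * (D ^ 2 * ‖c t‖ ^ 2) +
      3 * (if t ∈ T1 then 0 else (w t * D * ‖b t‖) ^ 2) := by
    intro t
    by_cases h1 : t ∈ T1
    · rw [if_pos h1, if_pos h1, norm_zero]
      have : 0 ≤ 3 * (D ^ 2 * ‖a t‖ ^ 2) + 3 * (D ^ 2 * ‖c t‖ ^ 2) := by positivity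
      simpa using this
    · rw [if_neg h1, if_neg h1]
      have h2 : ‖q t‖ ≤ D * ‖a t‖ + w t * D * ‖b t‖ + D * ‖c t‖ := by
        rw [hqs t, norm_mul, hwDn]
        have h3 : ‖a t + b t + c t‖ ≤ ‖a t‖ + ‖b t‖ + ‖c t‖ := norm_add₃_le
        have h4 := mul_le_mul_of_nonneg_left h3 (hwD t)
        have h5 := mul_le_mul_of_nonneg_right (hwD1 t) (norm_nonneg (a t))
        have h6 := mul_le_mul_of_nonneg_right (hwD1 t) (norm_nonneg (c t))
        nlinarith [h4, h5, h6]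
      have h3 : ‖q t‖ ^ 2 ≤ (D * ‖a t‖ + w t * D * ‖b t‖ + D * ‖c t‖) ^ 2 := pow_le_pow_left₀ (norm_nonneg _) h2 2
      nlinarith [h3, sq_nonneg (D * ‖a t‖ - w t * D * ‖b t‖), sq_nonneg (D * ‖a t‖ - D * ‖c t‖),
        sq_nonneg (w t * D * ‖b t‖ - D * ‖c t‖)]
  have hsecond : ∑ t, ‖(if t ∈ T1 then 0 else q t)‖ ^ 2 ≤ (z / 2) ^ 2 := by
    refine le_trans ?_ hD.ins
    rw [hD2]
    calc ∑ t, ‖(if t ∈ T1 then 0 else q t)‖ ^ 2
        ≤ ∑ t, (3 * (D ^ 2 * ‖a t‖ ^ 2) + 3 * (D ^ 2 * ‖c t‖ ^ 2) +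
            3 * (if t ∈ T1 then 0 else (w t * D * ‖b t‖) ^ 2)) := Finset.sum_le_sum fun t _ => hqsq t
      _ = 3 * (D ^ 2 * ∑ t, ‖a t‖ ^ 2) + 3 * (D ^ 2 * ∑ t, ‖c t‖ ^ 2) +
            3 * ∑ t, (if t ∈ T1 then 0 else (w t * D * ‖b t‖) ^ 2) := by
          simp only [Finset.sum_add_distrib, Finset.mul_sum]
      _ ≤ 3 * (D ^ 2 * (m * κ * (2 * ε) ^ (2 - p) + κ ^ 2 * ha ^ (2 - 2 * p))) +
            3 * (D ^ 2 * (B * κ * hc ^ (2 - p))) +
            3 * (D ^ 2 * (2 * J * m * κ * ha ^ 2 * hc ^ (-p)) + 2 * κ * τ ^ (2 - p) * ha ^ p * hc ^ (-p)) := by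
          have g1 := mul_le_mul_of_nonneg_left hA (sq_nonneg D)
          have g2 := mul_le_mul_of_nonneg_left hC (sq_nonneg D)
          linarith
      _ = _ := by ring
  -- the noise
  have hn2 : ∀ t, ‖n t‖ ^ 2 ≤ D ^ 2 * (d * ∑ u ∈ G t, ‖y2 u‖ ^ 2) := by
    intro t
    have h0 : ‖n t‖ ≤ D * ∑ u ∈ G t, ‖y2 u‖ := by
      simp only [hnT]
      rw [norm_mul, hwDn]
      exact mul_le_mul (hwD1 t) (nsum_le (G t) (fun u => σ u t) y2 (fun u => hσ u t)) (norm_nonneg _) hD0.le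
    have h1 : ‖n t‖ ^ 2 ≤ (D * ∑ u ∈ G t, ‖y2 u‖) ^ 2 := pow_le_pow_left₀ (norm_nonneg _) h0 2
    have h2 : (∑ u ∈ G t, ‖y2 u‖) ^ 2 ≤ (G t).card * ∑ u ∈ G t, ‖y2 u‖ ^ 2 :=
      sq_sum_le_card_mul_sum_sq
    have h3 : ((G t).card : ℝ) ≤ d := by exact_mod_cast hcard t
    have h4 : (0 : ℝ) ≤ ∑ u ∈ G t, ‖y2 u‖ ^ 2 := Finset.sum_nonneg fun _ _ => sq_nonneg _
    calc ‖n t‖ ^ 2 ≤ D ^ 2 * (∑ u ∈ G t, ‖y2 u‖) ^ 2 := by rw [← mul_pow]; exact h1
      _ ≤ D ^ 2 * (d * ∑ u ∈ G t, ‖y2 u‖ ^ 2) :=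
          mul_le_mul_of_nonneg_left (h2.trans (mul_le_mul_of_nonneg_right h3 h4)) (sq_nonneg D)
  have hnoise : ∑ t, ‖n t‖ ^ 2 ≤ (z / 2) ^ 2 := by
    refine le_trans ?_ hD.noi
    rw [hD2]
    have hd2 := dbl G (fun u => ‖y2 u‖ ^ 2) (fun _ => sq_nonneg _) m hpar
    have hm0 : (0 : ℝ) ≤ m := Nat.cast_nonneg _
    calc ∑ t, ‖n t‖ ^ 2 ≤ ∑ t, D ^ 2 * (d * ∑ u ∈ G t, ‖y2 u‖ ^ 2) := Finset.sum_le_sum fun t _ => hn2 t
      _ = D ^ 2 * (d * ∑ t, ∑ u ∈ G t, ‖y2 u‖ ^ 2) := by rw [Finset.mul_sum, Finset.mul_sum]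
      _ ≤ D ^ 2 * (d * (m * ζ ^ 2)) := by
          apply mul_le_mul_of_nonneg_left _ (sq_nonneg D)
          apply mul_le_mul_of_nonneg_left _ hd0.le
          exact hd2.trans (mul_le_mul_of_nonneg_left hy2 hm0)
      _ = _ := by ring
  -- conclusion
  refine ⟨fun t => if t ∈ T1 then q t else 0, fun t => (if t ∈ T1 then 0 else q t) + n t, ?_, ?_, ?_⟩
  · intro t
    have h1 : ((w t * D : ℝ) : ℂ) * ∑ u ∈ G t, σ u t * (y1 u + y2 u) = q t + n t := by
      simp only [hqT, hnT]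
      rw [← mul_add, ← Finset.sum_add_distrib]
      congr 1
      apply Finset.sum_congr rfl
      intro u _
      ring
    rw [h1]
    dsimp only
    split_ifs <;> ring
  · have h1 : ∀ t, ‖(if t ∈ T1 then q t else 0)‖ ^ p = if t ∈ T1 then ‖q t‖ ^ p else 0 := by
      intro t
      split_ifs
      · rfl
      · rw [norm_zero, Real.zero_rpow hp0.ne']
    rw [Finset.sum_congr rfl (fun t _ => h1 t), Finset.sum_ite_mem, Finset.univ_inter]
    exact hfirst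
  · have hpt : ∀ t, ‖(if t ∈ T1 then 0 else q t) + n t‖ ^ 2
        ≤ 2 * ‖(if t ∈ T1 then 0 else q t)‖ ^ 2 + 2 * ‖n t‖ ^ 2 := by
      intro t
      have h3 : ‖(if t ∈ T1 then 0 else q t) + n t‖
          ≤ ‖(if t ∈ T1 then 0 else q t)‖ + ‖n t‖ := norm_add_le _ _
      have h4 : ‖(if t ∈ T1 then 0 else q t) + n t‖ ^ 2
          ≤ (‖(if t ∈ T1 then 0 else q t)‖ + ‖n t‖) ^ 2 :=
        pow_le_pow_left₀ (norm_nonneg _) h3 2
      nlinarith [h4, sq_nonneg (‖(if t ∈ T1 then 0 else q t)‖ - ‖n t‖)]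
    calc ∑ t, ‖(if t ∈ T1 then 0 else q t) + n t‖ ^ 2
        ≤ ∑ t, (2 * ‖(if t ∈ T1 then 0 else q t)‖ ^ 2 + 2 * ‖n t‖ ^ 2) := Finset.sum_le_sum fun t _ => hpt t
      _ = 2 * ∑ t, ‖(if t ∈ T1 then 0 else q t)‖ ^ 2 + 2 * ∑ t, ‖n t‖ ^ 2 := by
          rw [Finset.sum_add_distrib, ← Finset.mul_sum, ← Finset.mul_sum]
      _ ≤ 2 * (z / 2) ^ 2 + 2 * (z / 2) ^ 2 := by linarith
      _ = z ^ 2 := by ring

end Pool.Agent.Helper9.XP
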